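import Pool.Agent.HCav.Rankin

/-!
MP_d13557_nt: the number of admissible triples with small `H(abc)`.
-/

set_option autoImplicit false

open Finset

namespace Pool.Agent.HCav

/-- `H(n) = γ(n) / (log γ(n)) ^ ω(n)`. -/
noncomputable def HH (n : ℕ) : ℝ := (rad n : ℝ) / Real.log (rad n) ^ n.primeFactors.card

/-- The multiplicative minorant. -/
noncomputable def hh (L : ℝ) (n : ℕ) : ℝ := (rad n : ℝ) / L ^ n.primeFactors.card

theorem hh_pos {L : ℝ} (hL : 0 < L) (n : ℕ) : 0 < hh L n := by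
  have := rad_pos n
  unfold hh
  positivity

theorem hh_mul (L : ℝ) {m n : ℕ} (h : m.Coprime n) : hh L (m * n) = hh L m * hh L n := by
  unfold hh
  rw [rad_mul h, card_mul h, pow_add, div_mul_div_comm]
  push_cast
  rfl

theorem rad_le {n : ℕ} (hn : n ≠ 0) : rad n ≤ n := Nat.le_of_dvd (Nat.pos_of_ne_zero hn) (Nat.prod_primeFactors_dvd n)

theorem two_le_rad {n : ℕ} (hn : 2 ≤ n) : 2 ≤ rad n := by
  obtain ⟨p, hp, hpn⟩ := Nat.exists_prime_and_dvd (n := n) (by omega)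
  have h1 : p ∈ n.primeFactors := Nat.mem_primeFactors.mpr ⟨hp, hpn, by omega⟩
  have h2 : p ∣ rad n := Finset.dvd_prod_of_mem (fun p => p) h1
  exact hp.two_le.trans (Nat.le_of_dvd (rad_pos n) h2)

theorem HH_ge {L : ℝ} {n : ℕ} (hn : 2 ≤ n) (h : Real.log n ≤ L) : hh L n ≤ HH n := by
  have h1 : (2 : ℝ) ≤ (rad n : ℝ) := by exact_mod_cast two_le_rad hn
  have h2 : 0 < Real.log (rad n) := Real.log_pos (by linarith)
  have h3 : Real.log (rad n) ≤ L := by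
    refine le_trans (Real.log_le_log (by linarith) ?_) h
    exact_mod_cast rad_le (by omega)
  unfold hh HH
  refine div_le_div_of_nonneg_left (by linarith) (by positivity) ?_
  exact pow_le_pow_left₀ h2.le h3 _

/-- The pairs. -/
noncomputable def pairs (L Y : ℝ) (X : ℕ) : Finset (ℕ × ℕ) :=
  letI := Classical.decPred fun t : ℕ × ℕ => hh L t.1 * hh L t.2 ≤ Y
  (Finset.Icc 1 X ×ˢ Finset.Icc 1 X).filter fun t => hh L t.1 * hh L t.2 ≤ Y

theorem mem_pairs {L Y : ℝ} {X : ℕ} {t : ℕ × ℕ} :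
    t ∈ pairs L Y X ↔ (1 ≤ t.1 ∧ t.1 ≤ X) ∧ (1 ≤ t.2 ∧ t.2 ≤ X) ∧ hh L t.1 * hh L t.2 ≤ Y := by
  unfold pairs
  rw [Finset.mem_filter, Finset.mem_product, Finset.mem_Icc, Finset.mem_Icc, and_assoc]

theorem card_pairs {L : ℝ} (hL : 0 < L) {Y : ℝ} (hY : 0 ≤ Y) (X : ℕ) :
    ((pairs L Y X).card : ℝ) ≤ Y * (∑ m ∈ Finset.Icc 1 X, L ^ m.primeFactors.card / (rad m : ℝ)) ^ 2 := by
  have h1 : ∀ m, L ^ m.primeFactors.card / (rad m : ℝ) = (hh L m)⁻¹ := by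
    intro m
    unfold hh
    rw [inv_div]
  have h2 : ∀ t ∈ pairs L Y X, (1 : ℝ) ≤ Y * ((hh L t.1)⁻¹ * (hh L t.2)⁻¹) := by
    intro t ht
    have h3 := (mem_pairs.mp ht).2.2
    have h4 := hh_pos hL t.1
    have h5 := hh_pos hL t.2
    rw [← mul_inv, ← div_eq_mul_inv, one_le_div (by positivity)]
    exact h3
  calc ((pairs L Y X).card : ℝ) = ∑ t ∈ pairs L Y X, (1 : ℝ) := by simp
    _ ≤ ∑ t ∈ pairs L Y X, Y * ((hh L t.1)⁻¹ * (hh L t.2)⁻¹) := Finset.sum_le_sum h2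
    _ ≤ ∑ t ∈ Finset.Icc 1 X ×ˢ Finset.Icc 1 X, Y * ((hh L t.1)⁻¹ * (hh L t.2)⁻¹) := by
        refine Finset.sum_le_sum_of_subset_of_nonneg ?_ ?_
        · intro t ht
          have h3 := mem_pairs.mp ht
          rw [Finset.mem_product, Finset.mem_Icc, Finset.mem_Icc]
          exact ⟨h3.1, h3.2.1⟩
        · intro t _ _
          have h4 := hh_pos hL t.1
          have h5 := hh_pos hL t.2
          positivity
    _ = Y * (∑ m ∈ Finset.Icc 1 X, L ^ m.primeFactors.card / (rad m : ℝ)) ^ 2 := by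
        rw [← Finset.mul_sum, sq, Finset.sum_mul_sum, Finset.sum_product]
        simp_rw [h1]

/-- The admissible triples with `c ≤ X` and `H(abc) ≤ Z`. -/
def TT (Z : ℝ) (X : ℕ) : Set (ℕ × ℕ × ℕ) :=
  {t | 0 < t.1 ∧ 0 < t.2.1 ∧ t.1 + t.2.1 = t.2.2 ∧ Nat.gcd t.1 (Nat.gcd t.2.1 t.2.2) = 1 ∧
    t.2.2 ≤ X ∧ HH (t.1 * t.2.1 * t.2.2) ≤ Z}

/-- Two of three have a small product. -/
theorem two_small {x y z Z : ℝ} (hx : 0 < x) (hy : 0 < y) (hz : 0 < z) (h : x * y * z ≤ Z) :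
    x * y ≤ Z ^ ((2 : ℝ) / 3) ∨ x * z ≤ Z ^ ((2 : ℝ) / 3) ∨ y * z ≤ Z ^ ((2 : ℝ) / 3) := by
  by_contra hcon
  push Not at hcon
  obtain ⟨h1, h2, h3⟩ := hcon
  have hp : 0 < x * y * z := by positivity
  have hZ : 0 < Z := hp.trans_le h
  set Y := Z ^ ((2 : ℝ) / 3) with hY
  have hY0 : 0 < Y := by positivity
  have e1 : Y ^ 3 = Z ^ 2 := by
    rw [hY, ← Real.rpow_natCast, ← Real.rpow_mul hZ.le, ← Real.rpow_natCast Z 2]
    congr 1
    norm_num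
  have h4 : Y * Y < (x * y) * (x * z) := mul_lt_mul'' h1 h2 hY0.le hY0.le
  have h5 : Y * Y * Y < (x * y) * (x * z) * (y * z) := mul_lt_mul'' h4 h3 (by positivity) hY0.le
  have h6 : (x * y) * (x * z) * (y * z) = (x * y * z) ^ 2 := by ring
  have h7 : (x * y * z) ^ 2 ≤ Z ^ 2 := pow_le_pow_left₀ hp.le h 2
  have h8 : Y * Y * Y = Y ^ 3 := by ring
  linarith

theorem TT_subset {Z : ℝ} {X : ℕ} (hX : 2 ≤ X) :
    TT Z X ⊆ (((pairs (3 * Real.log X) (Z ^ ((2 : ℝ) / 3)) X).image (fun t => (t.1, t.2, t.1 + t.2)) ∪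
      ((pairs (3 * Real.log X) (Z ^ ((2 : ℝ) / 3)) X).image (fun t => (t.1, t.2 - t.1, t.2)) ∪
      (pairs (3 * Real.log X) (Z ^ ((2 : ℝ) / 3)) X).image (fun t => (t.2 - t.1, t.1, t.2))) :
        Finset (ℕ × ℕ × ℕ)) : Set (ℕ × ℕ × ℕ)) := by
  rintro ⟨a, b, c⟩ ⟨ha, hb, hc, hg, hcX, hH⟩
  simp only at ha hb hc hg hcX hH
  set L := 3 * Real.log X with hL
  have hXR : (2 : ℝ) ≤ (X : ℝ) := by exact_mod_cast hX
  have hL0 : 0 < L := by
    have := Real.log_pos (show (1 : ℝ) < (X : ℝ) by linarith)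
    positivity
  have hab : a.Coprime b := by
    have h1 : Nat.gcd a b ∣ c := by
      rw [← hc]
      exact dvd_add (Nat.gcd_dvd_left a b) (Nat.gcd_dvd_right a b)
    have h2 : Nat.gcd a b ∣ Nat.gcd a (Nat.gcd b c) :=
      Nat.dvd_gcd (Nat.gcd_dvd_left a b) (Nat.dvd_gcd (Nat.gcd_dvd_right a b) h1)
    rw [hg] at h2
    exact Nat.dvd_one.mp h2
  have hac : a.Coprime c := by
    rw [← hc]
    exact Nat.coprime_self_add_right.mpr hab
  have hbc : b.Coprime c := by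
    rw [← hc]
    exact Nat.coprime_add_self_right.mpr hab.symm
  have h2 : 2 ≤ a * b * c := by
    have h3 : 2 ≤ c := by omega
    calc 2 ≤ c := h3
      _ ≤ a * b * c := Nat.le_mul_of_pos_left _ (Nat.mul_pos ha hb)
  have hlog : Real.log ((a * b * c : ℕ) : ℝ) ≤ L := by
    have h3 : a * b * c ≤ X ^ 3 := by
      calc a * b * c ≤ X * X * X := Nat.mul_le_mul (Nat.mul_le_mul (by omega) (by omega)) hcX
        _ = X ^ 3 := by ring
    have h4 : ((a * b * c : ℕ) : ℝ) ≤ (X : ℝ) ^ 3 := by exact_mod_cast h3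
    have h5 : (0 : ℝ) < ((a * b * c : ℕ) : ℝ) := by exact_mod_cast (by omega : 0 < a * b * c)
    calc Real.log ((a * b * c : ℕ) : ℝ) ≤ Real.log ((X : ℝ) ^ 3) := Real.log_le_log h5 h4
      _ = L := by rw [Real.log_pow, hL]; norm_num
  have h3 : hh L a * hh L b * hh L c ≤ Z := by
    rw [← hh_mul L hab, ← hh_mul L (Nat.Coprime.mul_left hac hbc)]
    exact (HH_ge h2 hlog).trans hH
  rw [Finset.coe_union, Finset.coe_union]
  rcases two_small (hh_pos hL0 a) (hh_pos hL0 b) (hh_pos hL0 c) h3 with h4 | h4 | h4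
  · refine Or.inl (Finset.mem_coe.mpr (Finset.mem_image.mpr ⟨(a, b), mem_pairs.mpr ⟨⟨ha, ?_⟩, ⟨hb, ?_⟩, h4⟩, ?_⟩))
    · simp only
      omega
    · simp only
      omega
    · simp only [hc]
  · refine Or.inr (Or.inl (Finset.mem_coe.mpr (Finset.mem_image.mpr
      ⟨(a, c), mem_pairs.mpr ⟨⟨ha, ?_⟩, ⟨?_, hcX⟩, h4⟩, ?_⟩)))
    · simp only
      omega
    · simp only
      omega
    · have h5 : c - a = b := by omega
      simp only [h5]
  · refine Or.inr (Or.inr (Finset.mem_coe.mpr (Finset.mem_image.mpr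
      ⟨(b, c), mem_pairs.mpr ⟨⟨hb, ?_⟩, ⟨?_, hcX⟩, h4⟩, ?_⟩)))
    · simp only
      omega
    · simp only
      omega
    · have h5 : c - b = a := by omega
      simp only [h5]

/-- The counting theorem. -/
theorem count {δ : ℝ} (hδ : 0 < δ) : ∃ C : ℝ, 0 < C ∧ ∀ (Z : ℝ) (X : ℕ), 0 ≤ Z → 1 ≤ X →
    (TT Z X).Finite ∧ ((TT Z X).ncard : ℝ) ≤ C * Z ^ ((2 : ℝ) / 3) * (X : ℝ) ^ δ := by
  obtain ⟨C, hC, hC'⟩ := sum_small (half_pos hδ)
  refine ⟨3 * C ^ 2 + 1, by positivity, fun Z X hZ hX => ?_⟩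
  have hXR : (1 : ℝ) ≤ (X : ℝ) := by exact_mod_cast hX
  have hZ' : 0 ≤ Z ^ ((2 : ℝ) / 3) := by positivity
  rcases eq_or_lt_of_le hX with h1 | h1
  · have h2 : TT Z X = ∅ := by
      rw [Set.eq_empty_iff_forall_notMem]
      rintro ⟨a, b, c⟩ ⟨ha, hb, hc, hg, hcX, hH⟩
      simp only at ha hb hc hcX
      omega
    rw [h2]
    refine ⟨Set.finite_empty, ?_⟩
    rw [Set.ncard_empty]
    push_cast
    positivity
  · have hsub := TT_subset (Z := Z) (X := X) h1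
    refine ⟨(Finset.finite_toSet _).subset hsub, ?_⟩
    set P := pairs (3 * Real.log X) (Z ^ ((2 : ℝ) / 3)) X with hP
    have h2 : (TT Z X).ncard ≤ 3 * P.card := by
      refine (Set.ncard_le_ncard hsub (Finset.finite_toSet _)).trans ?_
      rw [Set.ncard_coe_finset]
      refine (Finset.card_union_le _ _).trans ?_
      have h3 := Finset.card_union_le (P.image (fun t => (t.1, t.2 - t.1, t.2)))
        (P.image (fun t => (t.2 - t.1, t.1, t.2)))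
      have h4 : (P.image (fun t => (t.1, t.2, t.1 + t.2))).card ≤ P.card := Finset.card_image_le
      have h5 : (P.image (fun t => (t.1, t.2 - t.1, t.2))).card ≤ P.card := Finset.card_image_le
      have h6 : (P.image (fun t => (t.2 - t.1, t.1, t.2))).card ≤ P.card := Finset.card_image_le
      omega
    have hX2 : (2 : ℝ) ≤ (X : ℝ) := by exact_mod_cast h1
    have hL0 : 0 < 3 * Real.log X := by
      have := Real.log_pos (show (1 : ℝ) < (X : ℝ) by linarith)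
      positivity
    have h3 := card_pairs hL0 hZ' X
    have h4 := hC' X hX
    have h5 : 0 ≤ ∑ m ∈ Finset.Icc 1 X, (3 * Real.log X) ^ m.primeFactors.card / (rad m : ℝ) :=
      Finset.sum_nonneg fun m _ => by positivity
    have h6 : (∑ m ∈ Finset.Icc 1 X, (3 * Real.log X) ^ m.primeFactors.card / (rad m : ℝ)) ^ 2 ≤
        C ^ 2 * (X : ℝ) ^ δ := by
      calc (∑ m ∈ Finset.Icc 1 X, (3 * Real.log X) ^ m.primeFactors.card / (rad m : ℝ)) ^ 2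
          ≤ (C * (X : ℝ) ^ (δ / 2)) ^ 2 := pow_le_pow_left₀ h5 h4 2
        _ = C ^ 2 * (X : ℝ) ^ δ := by
            rw [mul_pow, ← Real.rpow_natCast ((X : ℝ) ^ (δ / 2)) 2, ← Real.rpow_mul (by positivity)]
            congr 2
            push_cast
            ring
    have h7 : ((TT Z X).ncard : ℝ) ≤ 3 * (P.card : ℝ) := by exact_mod_cast h2
    have h8 : (P.card : ℝ) ≤ Z ^ ((2 : ℝ) / 3) * (C ^ 2 * (X : ℝ) ^ δ) :=
      h3.trans (mul_le_mul_of_nonneg_left h6 hZ')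
    have h9 : 0 ≤ Z ^ ((2 : ℝ) / 3) * (X : ℝ) ^ δ := by positivity
    nlinarith [h7, h8, h9]

theorem HH_pos {n : ℕ} (hn : 2 ≤ n) : 0 < HH n := by
  have h1 : (2 : ℝ) ≤ (rad n : ℝ) := by exact_mod_cast two_le_rad hn
  have h2 : 0 < Real.log (rad n) := Real.log_pos (by linarith)
  unfold HH
  positivity

/-- The admissible triples with `c ≤ X` and `K * H(abc) ^ (1 + ε) ≤ c`. -/
def EE (ε K : ℝ) (X : ℕ) : Set (ℕ × ℕ × ℕ) :=
  {t | 0 < t.1 ∧ 0 < t.2.1 ∧ t.1 + t.2.1 = t.2.2 ∧ Nat.gcd t.1 (Nat.gcd t.2.1 t.2.2) = 1 ∧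
    t.2.2 ≤ X ∧ K * HH (t.1 * t.2.1 * t.2.2) ^ (1 + ε) ≤ (t.2.2 : ℝ)}

theorem EE_subset {ε K : ℝ} (hε : 0 < ε) (hK : 0 < K) (X : ℕ) :
    EE ε K X ⊆ TT (((X : ℝ) / K) ^ ((1 + ε)⁻¹)) X := by
  rintro ⟨a, b, c⟩ ⟨ha, hb, hc, hg, hcX, hH⟩
  refine ⟨ha, hb, hc, hg, hcX, ?_⟩
  simp only at ha hb hc hg hcX hH ⊢
  have h2 : 2 ≤ a * b * c := by
    have h3 : 2 ≤ c := by omega
    calc 2 ≤ c := h3
      _ ≤ a * b * c := Nat.le_mul_of_pos_left _ (Nat.mul_pos ha hb)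
  have h3 := HH_pos h2
  rw [Real.le_rpow_inv_iff_of_pos h3.le (by positivity) (by linarith), le_div_iff₀ hK, mul_comm]
  have h4 : (c : ℝ) ≤ (X : ℝ) := by exact_mod_cast hcX
  exact hH.trans h4

/-- The exceptions to the H-conjecture. -/
theorem except {ε K : ℝ} (hε : 0 < ε) (hK : 0 < K) : ∃ C : ℝ, 0 < C ∧ ∀ X : ℕ, 1 ≤ X →
    (EE ε K X).Finite ∧ ((EE ε K X).ncard : ℝ) ≤ C * (X : ℝ) ^ ((2 : ℝ) / 3 - ε / (3 + 3 * ε)) := by
  obtain ⟨C, hC, hC'⟩ := count (δ := ε / (3 + 3 * ε)) (by positivity)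
  refine ⟨C * (K⁻¹ ^ ((1 + ε)⁻¹)) ^ ((2 : ℝ) / 3), by positivity, fun X hX => ?_⟩
  have hXR : (1 : ℝ) ≤ (X : ℝ) := by exact_mod_cast hX
  obtain ⟨h1, h2⟩ := hC' (((X : ℝ) / K) ^ ((1 + ε)⁻¹)) X (by positivity) hX
  have hsub := EE_subset hε hK X
  refine ⟨h1.subset hsub, ?_⟩
  have h3 : ((EE ε K X).ncard : ℝ) ≤ ((TT (((X : ℝ) / K) ^ ((1 + ε)⁻¹)) X).ncard : ℝ) := by
    exact_mod_cast Set.ncard_le_ncard hsub h1
  refine (h3.trans h2).trans (le_of_eq ?_)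
  have h4 : (((X : ℝ) / K) ^ ((1 + ε)⁻¹)) ^ ((2 : ℝ) / 3) =
      (K⁻¹ ^ ((1 + ε)⁻¹)) ^ ((2 : ℝ) / 3) * (X : ℝ) ^ ((1 + ε)⁻¹ * (2 / 3)) := by
    rw [div_eq_mul_inv, Real.mul_rpow (by positivity) (by positivity),
      Real.mul_rpow (by positivity) (by positivity), ← Real.rpow_mul (by positivity) ((1 + ε)⁻¹)]
    ring
  rw [h4]
  have h5 : (X : ℝ) ^ ((1 + ε)⁻¹ * (2 / 3)) * (X : ℝ) ^ (ε / (3 + 3 * ε)) =
      (X : ℝ) ^ ((2 : ℝ) / 3 - ε / (3 + 3 * ε)) := by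
    rw [← Real.rpow_add (by linarith)]
    congr 1
    have : (1 + ε) ≠ 0 := by positivity
    have : (3 + 3 * ε) ≠ 0 := by positivity
    field_simp
    ring
  rw [← h5]
  ring

end Pool.Agent.HCav
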