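import Pool.Agent.HCav.Count

/-!
MP_d13557_nt: triples with one given member.
-/

set_option autoImplicit false

open Finset

namespace Pool.Agent.HCav

/-- The numbers with small minorant. -/
noncomputable def small (L Y : ℝ) (X : ℕ) : Finset ℕ :=
  letI := Classical.decPred fun n : ℕ => hh L n ≤ Y
  (Finset.Icc 1 X).filter fun n => hh L n ≤ Y

theorem mem_small {L Y : ℝ} {X n : ℕ} : n ∈ small L Y X ↔ (1 ≤ n ∧ n ≤ X) ∧ hh L n ≤ Y := by
  unfold small
  rw [Finset.mem_filter, Finset.mem_Icc]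

theorem card_small {L : ℝ} (hL : 0 < L) {Y : ℝ} (hY : 0 ≤ Y) (X : ℕ) :
    ((small L Y X).card : ℝ) ≤ Y * ∑ m ∈ Finset.Icc 1 X, L ^ m.primeFactors.card / (rad m : ℝ) := by
  have h1 : ∀ m, L ^ m.primeFactors.card / (rad m : ℝ) = (hh L m)⁻¹ := by
    intro m
    unfold hh
    rw [inv_div]
  have h2 : ∀ n ∈ small L Y X, (1 : ℝ) ≤ Y * (hh L n)⁻¹ := by
    intro n hn
    have h3 := (mem_small.mp hn).2
    have h4 := hh_pos hL n
    rw [← div_eq_mul_inv, one_le_div h4]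
    exact h3
  calc ((small L Y X).card : ℝ) = ∑ n ∈ small L Y X, (1 : ℝ) := by simp
    _ ≤ ∑ n ∈ small L Y X, Y * (hh L n)⁻¹ := Finset.sum_le_sum h2
    _ ≤ ∑ n ∈ Finset.Icc 1 X, Y * (hh L n)⁻¹ := by
        refine Finset.sum_le_sum_of_subset_of_nonneg ?_ ?_
        · intro n hn
          exact Finset.mem_Icc.mpr (mem_small.mp hn).1
        · intro n _ _
          have h4 := hh_pos hL n
          positivity
    _ = Y * ∑ m ∈ Finset.Icc 1 X, L ^ m.primeFactors.card / (rad m : ℝ) := by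
        rw [← Finset.mul_sum]
        simp_rw [h1]

/-- The triples with the member `m`. -/
def FF (Z : ℝ) (X m : ℕ) : Set (ℕ × ℕ × ℕ) := {t | t ∈ TT Z X ∧ (t.1 = m ∨ t.2.1 = m ∨ t.2.2 = m)}

theorem one_small {x y z Z : ℝ} (hx : 0 < x) (hy : 0 < y) (hz : 0 < z) (h : x * y * z ≤ Z) :
    y ≤ Real.sqrt (Z / x) ∨ z ≤ Real.sqrt (Z / x) := by
  by_contra hcon
  push Not at hcon
  obtain ⟨h1, h2⟩ := hcon
  have h3 : Real.sqrt (Z / x) * Real.sqrt (Z / x) < y * z :=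
    mul_lt_mul'' h1 h2 (Real.sqrt_nonneg _) (Real.sqrt_nonneg _)
  have hp : 0 < x * y * z := by positivity
  rw [Real.mul_self_sqrt (by have : 0 < Z := hp.trans_le h; positivity), div_lt_iff₀ hx] at h3
  nlinarith

theorem FF_subset {Z : ℝ} {X m : ℕ} (hX : 2 ≤ X) (hm : 1 ≤ m) :
    FF Z X m ⊆ ((((small (3 * Real.log X) (Real.sqrt (Z / hh (3 * Real.log X) m)) X).image (fun n => (m, n, m + n)) ∪
      (small (3 * Real.log X) (Real.sqrt (Z / hh (3 * Real.log X) m)) X).image (fun n => (m, n - m, n))) ∪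
      ((small (3 * Real.log X) (Real.sqrt (Z / hh (3 * Real.log X) m)) X).image (fun n => (n, m, n + m)) ∪
      (small (3 * Real.log X) (Real.sqrt (Z / hh (3 * Real.log X) m)) X).image (fun n => (n - m, m, n))) ∪
      ((small (3 * Real.log X) (Real.sqrt (Z / hh (3 * Real.log X) m)) X).image (fun n => (n, m - n, m)) ∪
      (small (3 * Real.log X) (Real.sqrt (Z / hh (3 * Real.log X) m)) X).image (fun n => (m - n, n, m))) :
        Finset (ℕ × ℕ × ℕ)) : Set (ℕ × ℕ × ℕ)) := by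
  rintro ⟨a, b, c⟩ ⟨⟨ha, hb, hc, hg, hcX, hH⟩, hmem⟩
  simp only at ha hb hc hg hcX hH hmem
  set L := 3 * Real.log X with hL
  have hXR : (2 : ℝ) ≤ (X : ℝ) := by exact_mod_cast hX
  have hL0 : 0 < L := by
    have := Real.log_pos (show (1 : ℝ) < (X : ℝ) by linarith)
    positivity
  have hab : a.Coprime b := by
    have h1 : Nat.gcd a b ∣ c := by
      rw [← hc]
      exact dvd_add (Nat.gcd_dvd_left a b) (Nat.gcd_dvd_right a b)
    have h2 : Nat.gcd a b ∣ Nat.gcd a (Nat.gcd b c) :=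
      Nat.dvd_gcd (Nat.gcd_dvd_left a b) (Nat.dvd_gcd (Nat.gcd_dvd_right a b) h1)
    rw [hg] at h2
    exact Nat.dvd_one.mp h2
  have hac : a.Coprime c := by
    rw [← hc]
    exact Nat.coprime_self_add_right.mpr hab
  have hbc : b.Coprime c := by
    rw [← hc]
    exact Nat.coprime_add_self_right.mpr hab.symm
  have h2 : 2 ≤ a * b * c := by
    have h3 : 2 ≤ c := by omega
    calc 2 ≤ c := h3
      _ ≤ a * b * c := Nat.le_mul_of_pos_left _ (Nat.mul_pos ha hb)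
  have hlog : Real.log ((a * b * c : ℕ) : ℝ) ≤ L := by
    have h3 : a * b * c ≤ X ^ 3 := by
      calc a * b * c ≤ X * X * X := Nat.mul_le_mul (Nat.mul_le_mul (by omega) (by omega)) hcX
        _ = X ^ 3 := by ring
    have h4 : ((a * b * c : ℕ) : ℝ) ≤ (X : ℝ) ^ 3 := by exact_mod_cast h3
    have h5 : (0 : ℝ) < ((a * b * c : ℕ) : ℝ) := by exact_mod_cast (by omega : 0 < a * b * c)
    calc Real.log ((a * b * c : ℕ) : ℝ) ≤ Real.log ((X : ℝ) ^ 3) := Real.log_le_log h5 h4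
      _ = L := by rw [Real.log_pow, hL]; norm_num
  have h3 : hh L a * hh L b * hh L c ≤ Z := by
    rw [← hh_mul L hab, ← hh_mul L (Nat.Coprime.mul_left hac hbc)]
    exact (HH_ge h2 hlog).trans hH
  have pa := hh_pos hL0 a
  have pb := hh_pos hL0 b
  have pc := hh_pos hL0 c
  simp only [Finset.coe_union, Finset.coe_image, Set.mem_union, Set.mem_image, Finset.mem_coe]
  rcases hmem with rfl | rfl | rfl
  · refine Or.inl (Or.inl ?_)
    rcases one_small pa pb pc h3 with h4 | h4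
    · exact Or.inl ⟨b, mem_small.mpr ⟨⟨hb, by omega⟩, h4⟩, by simp only [hc]⟩
    · refine Or.inr ⟨c, mem_small.mpr ⟨⟨by omega, hcX⟩, h4⟩, ?_⟩
      have h5 : c - a = b := by omega
      simp only [h5]
  · refine Or.inl (Or.inr ?_)
    have h3' : hh L b * hh L a * hh L c ≤ Z := by
      rw [mul_comm (hh L b) (hh L a)]
      exact h3
    rcases one_small pb pa pc h3' with h4 | h4
    · exact Or.inl ⟨a, mem_small.mpr ⟨⟨ha, by omega⟩, h4⟩, by simp only [hc]⟩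
    · refine Or.inr ⟨c, mem_small.mpr ⟨⟨by omega, hcX⟩, h4⟩, ?_⟩
      have h5 : c - b = a := by omega
      simp only [h5]
  · refine Or.inr ?_
    have h3' : hh L c * hh L a * hh L b ≤ Z := by
      calc hh L c * hh L a * hh L b = hh L a * hh L b * hh L c := by ring
        _ ≤ Z := h3
    rcases one_small pc pa pb h3' with h4 | h4
    · refine Or.inl ⟨a, mem_small.mpr ⟨⟨ha, by omega⟩, h4⟩, ?_⟩
      have h5 : c - a = b := by omega
      simp only [h5]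
    · refine Or.inr ⟨b, mem_small.mpr ⟨⟨hb, by omega⟩, h4⟩, ?_⟩
      have h5 : c - b = a := by omega
      simp only [h5]

/-- The counting theorem for triples with a given member. -/
theorem fixed {δ : ℝ} (hδ : 0 < δ) : ∃ C : ℝ, 0 < C ∧ ∀ (Z : ℝ) (X m : ℕ), 0 ≤ Z → 1 ≤ X →
    (FF Z X m).Finite ∧ ((FF Z X m).ncard : ℝ) ≤ C * Z ^ ((1 : ℝ) / 2) * (X : ℝ) ^ δ := by
  obtain ⟨C, hC, hC'⟩ := sum_small (half_pos hδ)
  refine ⟨6 * (C + 1) * (C + 1), by positivity, fun Z X m hZ hX => ?_⟩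
  have hXR : (1 : ℝ) ≤ (X : ℝ) := by exact_mod_cast hX
  have hZ' : 0 ≤ Z ^ ((1 : ℝ) / 2) := by positivity
  by_cases hcase : 2 ≤ X ∧ 1 ≤ m ∧ m ≤ X
  · obtain ⟨h1, hm1, hmX⟩ := hcase
    have hsub := FF_subset (Z := Z) (X := X) h1 hm1
    refine ⟨(Finset.finite_toSet _).subset hsub, ?_⟩
    set L := 3 * Real.log X with hL
    set Y := Real.sqrt (Z / hh L m) with hY
    set S := small L Y X with hS
    have hX2 : (2 : ℝ) ≤ (X : ℝ) := by exact_mod_cast h1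
    have hL0 : 0 < L := by
      have := Real.log_pos (show (1 : ℝ) < (X : ℝ) by linarith)
      positivity
    have h2 : (FF Z X m).ncard ≤ 6 * S.card := by
      refine (Set.ncard_le_ncard hsub (Finset.finite_toSet _)).trans ?_
      rw [Set.ncard_coe_finset]
      have key : ∀ (f g : ℕ → ℕ × ℕ × ℕ), (S.image f ∪ S.image g).card ≤ 2 * S.card := by
        intro f g
        have h4 : (S.image f).card ≤ S.card := Finset.card_image_le
        have h5 : (S.image g).card ≤ S.card := Finset.card_image_le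
        have h6 := Finset.card_union_le (S.image f) (S.image g)
        omega
      refine (Finset.card_union_le _ _).trans ?_
      have h7 := Finset.card_union_le (S.image (fun n => (m, n, m + n)) ∪ S.image (fun n => (m, n - m, n)))
        (S.image (fun n => (n, m, n + m)) ∪ S.image (fun n => (n - m, m, n)))
      have h8 := key (fun n => (m, n, m + n)) (fun n => (m, n - m, n))
      have h9 := key (fun n => (n, m, n + m)) (fun n => (n - m, m, n))
      have h10 := key (fun n => (n, m - n, m)) (fun n => (m - n, n, m))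
      omega
    have hY0 : 0 ≤ Y := Real.sqrt_nonneg _
    have h3 := card_small hL0 hY0 X
    have h4 := hC' X hX
    set T := ∑ m ∈ Finset.Icc 1 X, L ^ m.primeFactors.card / (rad m : ℝ) with hT
    have hT0 : 0 ≤ T := Finset.sum_nonneg fun n _ => by positivity
    have h5 : (hh L m)⁻¹ ≤ T := by
      have h6 : (hh L m)⁻¹ = L ^ m.primeFactors.card / (rad m : ℝ) := by
        unfold hh
        rw [inv_div]
      rw [h6]
      exact Finset.single_le_sum (f := fun n : ℕ => L ^ n.primeFactors.card / (rad n : ℝ))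
        (fun n _ => by positivity) (Finset.mem_Icc.mpr ⟨hm1, hmX⟩)
    have h6 : Y ≤ Z ^ ((1 : ℝ) / 2) * T ^ ((1 : ℝ) / 2) := by
      rw [hY, Real.sqrt_eq_rpow, ← Real.mul_rpow hZ hT0]
      refine Real.rpow_le_rpow ?_ ?_ (by norm_num)
      · have := hh_pos hL0 m
        positivity
      · rw [div_eq_mul_inv]
        exact mul_le_mul_of_nonneg_left h5 hZ
    have hW1 : 1 ≤ (X : ℝ) ^ (δ / 2) := Real.one_le_rpow hXR (by linarith)
    have h7 : T ^ ((1 : ℝ) / 2) ≤ (C + 1) * (X : ℝ) ^ (δ / 2) := by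
      have h8 : T ≤ (C + 1) * (X : ℝ) ^ (δ / 2) := by nlinarith
      have h9 : 1 ≤ (C + 1) * (X : ℝ) ^ (δ / 2) := by nlinarith
      calc T ^ ((1 : ℝ) / 2) ≤ ((C + 1) * (X : ℝ) ^ (δ / 2)) ^ ((1 : ℝ) / 2) :=
            Real.rpow_le_rpow hT0 h8 (by norm_num)
        _ ≤ ((C + 1) * (X : ℝ) ^ (δ / 2)) ^ (1 : ℝ) :=
            Real.rpow_le_rpow_of_exponent_le h9 (by norm_num)
        _ = _ := Real.rpow_one _
    have h8 : Y * T ≤ Z ^ ((1 : ℝ) / 2) * ((C + 1) * (X : ℝ) ^ (δ / 2)) * ((C + 1) * (X : ℝ) ^ (δ / 2)) := by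
      have h9 : T ≤ (C + 1) * (X : ℝ) ^ (δ / 2) := by nlinarith
      have h10 : Y ≤ Z ^ ((1 : ℝ) / 2) * ((C + 1) * (X : ℝ) ^ (δ / 2)) :=
        h6.trans (mul_le_mul_of_nonneg_left h7 hZ')
      exact mul_le_mul h10 h9 hT0 (by positivity)
    have h9 : (X : ℝ) ^ (δ / 2) * (X : ℝ) ^ (δ / 2) = (X : ℝ) ^ δ := by
      rw [← Real.rpow_add (by linarith), add_halves]
    have h10 : ((FF Z X m).ncard : ℝ) ≤ 6 * (S.card : ℝ) := by exact_mod_cast h2
    calc ((FF Z X m).ncard : ℝ) ≤ 6 * (S.card : ℝ) := h10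
      _ ≤ 6 * (Y * T) := by linarith
      _ ≤ 6 * (Z ^ ((1 : ℝ) / 2) * ((C + 1) * (X : ℝ) ^ (δ / 2)) * ((C + 1) * (X : ℝ) ^ (δ / 2))) := by linarith
      _ = 6 * (C + 1) * (C + 1) * Z ^ ((1 : ℝ) / 2) * ((X : ℝ) ^ (δ / 2) * (X : ℝ) ^ (δ / 2)) := by ring
      _ = _ := by rw [h9]
  · have h2 : FF Z X m = ∅ := by
      rw [Set.eq_empty_iff_forall_notMem]
      rintro ⟨a, b, c⟩ ⟨⟨ha, hb, hc, hg, hcX, hH⟩, hmem⟩
      simp only at ha hb hc hcX hmem
      apply hcase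
      omega
    rw [h2]
    refine ⟨Set.finite_empty, ?_⟩
    rw [Set.ncard_empty]
    push_cast
    positivity

/-- The exceptions to the H-conjecture with a given member. -/
theorem except_fixed {ε K : ℝ} (hε : 0 < ε) (hK : 0 < K) : ∃ C : ℝ, 0 < C ∧ ∀ X m : ℕ, 1 ≤ X →
    ({t : ℕ × ℕ × ℕ | t ∈ EE ε K X ∧ (t.1 = m ∨ t.2.1 = m ∨ t.2.2 = m)}.ncard : ℝ) ≤
      C * (X : ℝ) ^ ((1 : ℝ) / 2 - ε / (4 + 4 * ε)) := by
  obtain ⟨C, hC, hC'⟩ := fixed (δ := ε / (4 + 4 * ε)) (by positivity)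
  refine ⟨C * (K⁻¹ ^ ((1 + ε)⁻¹)) ^ ((1 : ℝ) / 2), by positivity, fun X m hX => ?_⟩
  have hXR : (1 : ℝ) ≤ (X : ℝ) := by exact_mod_cast hX
  obtain ⟨h1, h2⟩ := hC' (((X : ℝ) / K) ^ ((1 + ε)⁻¹)) X m (by positivity) hX
  have hsub : {t : ℕ × ℕ × ℕ | t ∈ EE ε K X ∧ (t.1 = m ∨ t.2.1 = m ∨ t.2.2 = m)} ⊆
      FF (((X : ℝ) / K) ^ ((1 + ε)⁻¹)) X m := fun t ht => ⟨EE_subset hε hK X ht.1, ht.2⟩
  have h3 : ({t : ℕ × ℕ × ℕ | t ∈ EE ε K X ∧ (t.1 = m ∨ t.2.1 = m ∨ t.2.2 = m)}.ncard : ℝ) ≤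
      ((FF (((X : ℝ) / K) ^ ((1 + ε)⁻¹)) X m).ncard : ℝ) := by
    exact_mod_cast Set.ncard_le_ncard hsub h1
  refine (h3.trans h2).trans (le_of_eq ?_)
  have h4 : (((X : ℝ) / K) ^ ((1 + ε)⁻¹)) ^ ((1 : ℝ) / 2) =
      (K⁻¹ ^ ((1 + ε)⁻¹)) ^ ((1 : ℝ) / 2) * (X : ℝ) ^ ((1 + ε)⁻¹ * (1 / 2)) := by
    rw [div_eq_mul_inv, Real.mul_rpow (by positivity) (by positivity),
      Real.mul_rpow (by positivity) (by positivity), ← Real.rpow_mul (by positivity) ((1 + ε)⁻¹)]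
    ring
  rw [h4]
  have h5 : (X : ℝ) ^ ((1 + ε)⁻¹ * (1 / 2)) * (X : ℝ) ^ (ε / (4 + 4 * ε)) =
      (X : ℝ) ^ ((1 : ℝ) / 2 - ε / (4 + 4 * ε)) := by
    rw [← Real.rpow_add (by linarith)]
    congr 1
    have : (1 + ε) ≠ 0 := by positivity
    have : (4 + 4 * ε) ≠ 0 := by positivity
    field_simp
    ring
  rw [← h5]
  ring

end Pool.Agent.HCav
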