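import Mathlib

/-!
MP_d13557_nt: Rankin's bound for the sum of `L ^ ω(n) / γ(n)`.
-/

set_option autoImplicit false

open Finset

namespace Pool.Agent.HCav

/-- The radical. -/
def rad (n : ℕ) : ℕ := ∏ p ∈ n.primeFactors, p

/-- The weight. -/
noncomputable def w (L η : ℝ) (n : ℕ) : ℝ :=
  L ^ n.primeFactors.card / ((rad n : ℝ) * (n : ℝ) ^ η)

theorem w_one (L η : ℝ) : w L η 1 = 1 := by
  simp [w, rad]

theorem rad_mul {m n : ℕ} (h : m.Coprime n) : rad (m * n) = rad m * rad n := by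
  unfold rad
  rw [h.primeFactors_mul, Finset.prod_union h.disjoint_primeFactors]

theorem card_mul {m n : ℕ} (h : m.Coprime n) :
    (m * n).primeFactors.card = m.primeFactors.card + n.primeFactors.card := by
  rw [h.primeFactors_mul, Finset.card_union_of_disjoint h.disjoint_primeFactors]

theorem rad_pos (n : ℕ) : 0 < rad n :=
  Finset.prod_pos fun _ hp => (Nat.prime_of_mem_primeFactors hp).pos

theorem w_mul (L η : ℝ) {m n : ℕ} (h : m.Coprime n) : w L η (m * n) = w L η m * w L η n := by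
  unfold w
  rw [rad_mul h, card_mul h, pow_add]
  push_cast
  rw [Real.mul_rpow (Nat.cast_nonneg m) (Nat.cast_nonneg n)]
  rw [div_mul_div_comm]
  congr 1
  ring

theorem w_nonneg {L : ℝ} (hL : 0 ≤ L) (η : ℝ) (n : ℕ) : 0 ≤ w L η n := by
  unfold w
  positivity

theorem w_pow (L η : ℝ) {p : ℕ} (hp : p.Prime) (k : ℕ) :
    w L η (p ^ (k + 1)) = L / (p * (p : ℝ) ^ η) * (((p : ℝ) ^ η)⁻¹) ^ k := by
  unfold w rad
  rw [Nat.primeFactors_prime_pow (by omega) hp, Finset.card_singleton, Finset.prod_singleton, pow_one]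
  have h0 : (0 : ℝ) < (p : ℝ) := by exact_mod_cast hp.pos
  have h1 : ((p ^ (k + 1) : ℕ) : ℝ) ^ η = ((p : ℝ) ^ η) ^ (k + 1) := by
    push_cast
    rw [← Real.rpow_natCast, ← Real.rpow_mul h0.le, mul_comm, Real.rpow_mul h0.le, Real.rpow_natCast]
  rw [h1, pow_succ]
  have h2 : (0 : ℝ) < (p : ℝ) ^ η := by positivity
  rw [inv_pow]
  field_simp

theorem ratio {η : ℝ} (hη : 0 < η) {p : ℕ} (hp : p.Prime) :
    ((p : ℝ) ^ η)⁻¹ ≤ ((2 : ℝ) ^ η)⁻¹ ∧ ((2 : ℝ) ^ η)⁻¹ < 1 ∧ 0 ≤ ((p : ℝ) ^ η)⁻¹ := by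
  have h0 : (2 : ℝ) ≤ (p : ℝ) := by exact_mod_cast hp.two_le
  have h1 : (2 : ℝ) ^ η ≤ (p : ℝ) ^ η := Real.rpow_le_rpow (by norm_num) h0 hη.le
  have h2 : (1 : ℝ) < (2 : ℝ) ^ η := Real.one_lt_rpow (by norm_num) hη
  refine ⟨inv_anti₀ (by positivity) h1, inv_lt_one_of_one_lt₀ h2, by positivity⟩

theorem hasSum_w (L : ℝ) {η : ℝ} (hη : 0 < η) {p : ℕ} (hp : p.Prime) :
    HasSum (fun k : ℕ => w L η (p ^ k)) (1 + L / (p * (p : ℝ) ^ η) * (1 - ((p : ℝ) ^ η)⁻¹)⁻¹) := by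
  obtain ⟨h1, h2, h3⟩ := ratio hη hp
  have h4 : HasSum (fun k : ℕ => w L η (p ^ (k + 1))) (L / (p * (p : ℝ) ^ η) * (1 - ((p : ℝ) ^ η)⁻¹)⁻¹) := by
    simp_rw [w_pow L η hp]
    exact (hasSum_geometric_of_lt_one h3 (h1.trans_lt h2)).mul_left _
  have h5 := (hasSum_nat_add_iff (f := fun k : ℕ => w L η (p ^ k)) 1).mp h4
  rw [Finset.sum_range_one, pow_zero, w_one, add_comm] at h5
  exact h5

/-- The constant. -/
noncomputable def cc (η : ℝ) : ℝ := (1 - ((2 : ℝ) ^ η)⁻¹)⁻¹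

theorem cc_pos {η : ℝ} (hη : 0 < η) : 0 < cc η := by
  have h2 : (1 : ℝ) < (2 : ℝ) ^ η := Real.one_lt_rpow (by norm_num) hη
  have h3 : ((2 : ℝ) ^ η)⁻¹ < 1 := inv_lt_one_of_one_lt₀ h2
  unfold cc
  exact inv_pos.mpr (by linarith)

theorem tsum_w_le {L : ℝ} (hL : 0 ≤ L) {η : ℝ} (hη : 0 < η) {p : ℕ} (hp : p.Prime) :
    ∑' k : ℕ, w L η (p ^ k) ≤ 1 + (L * cc η) / (p : ℝ) ^ (1 + η) := by
  rw [(hasSum_w L hη hp).tsum_eq]
  obtain ⟨h1, h2, h3⟩ := ratio hη hp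
  have h0 : (0 : ℝ) < (p : ℝ) := by exact_mod_cast hp.pos
  have h4 : (p : ℝ) ^ (1 + η) = p * (p : ℝ) ^ η := by
    rw [Real.rpow_add h0, Real.rpow_one]
  have h5 : (1 - ((p : ℝ) ^ η)⁻¹)⁻¹ ≤ cc η := by
    unfold cc
    exact inv_anti₀ (by linarith) (by linarith)
  rw [h4, mul_div_right_comm]
  have h6 : 0 ≤ L / (p * (p : ℝ) ^ η) := by positivity
  have := mul_le_mul_of_nonneg_left h5 h6
  linarith

theorem one_add_le {t θ : ℝ} (ht : 0 ≤ t) (h1 : 1 / 2 ≤ θ) (h2 : θ ≤ 1) : 1 + t ≤ Real.exp (3 * t ^ θ) := by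
  have h0 : 0 ≤ t ^ θ := by positivity
  rcases le_total t 1 with h | h
  · have h3 : t ≤ t ^ θ := by
      conv_lhs => rw [← Real.rpow_one t]
      exact Real.rpow_le_rpow_of_exponent_ge' ht h (by linarith) h2
    have h4 := Real.add_one_le_exp t
    have h5 : Real.exp t ≤ Real.exp (3 * t ^ θ) := Real.exp_le_exp.mpr (by linarith)
    linarith
  · have h3 : 1 ≤ t ^ θ := Real.one_le_rpow h (by linarith)
    have h4 : Real.log t ≤ t ^ θ / θ := Real.log_le_rpow_div ht (by linarith)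
    have h5 : t ^ θ / θ ≤ 2 * t ^ θ := by
      rw [div_le_iff₀ (by linarith)]
      nlinarith
    have h6 : Real.log 2 ≤ 1 := by
      have := Real.log_two_lt_d9
      linarith
    have h7 : Real.log (1 + t) ≤ 3 * t ^ θ := by
      calc Real.log (1 + t) ≤ Real.log (2 * t) := Real.log_le_log (by linarith) (by linarith)
        _ = Real.log 2 + Real.log t := Real.log_mul (by norm_num) (by linarith)
        _ ≤ 3 * t ^ θ := by linarith
    calc 1 + t = Real.exp (Real.log (1 + t)) := (Real.exp_log (by linarith)).symm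
      _ ≤ _ := Real.exp_le_exp.mpr h7

/-- The bound for the product over the primes. -/
theorem prod_le {L : ℝ} (hL : 0 ≤ L) {η : ℝ} (hη : 0 < η) {θ : ℝ} (h1 : 1 / 2 ≤ θ) (h2 : θ ≤ 1)
    (h3 : 1 < (1 + η) * θ) (N : ℕ) :
    ∏ p ∈ N.primesBelow, ∑' k : ℕ, w L η (p ^ k) ≤
      Real.exp (3 * (L * cc η) ^ θ * ∑' n : ℕ, 1 / (n : ℝ) ^ ((1 + η) * θ)) := by
  have hc := cc_pos hη
  have hs : Summable fun n : ℕ => 1 / (n : ℝ) ^ ((1 + η) * θ) := Real.summable_one_div_nat_rpow.mpr h3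
  calc ∏ p ∈ N.primesBelow, ∑' k : ℕ, w L η (p ^ k)
      ≤ ∏ p ∈ N.primesBelow, Real.exp (3 * (L * cc η) ^ θ * (1 / (p : ℝ) ^ ((1 + η) * θ))) := by
        refine Finset.prod_le_prod (fun p _ => tsum_nonneg fun k => w_nonneg hL η _) fun p hp => ?_
        have hp' := Nat.prime_of_mem_primesBelow hp
        refine (tsum_w_le hL hη hp').trans ((one_add_le (by positivity) h1 h2).trans (le_of_eq ?_))
        congr 1
        rw [Real.div_rpow (by positivity) (by positivity), ← Real.rpow_mul (by positivity)]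
        ring
    _ = Real.exp (∑ p ∈ N.primesBelow, 3 * (L * cc η) ^ θ * (1 / (p : ℝ) ^ ((1 + η) * θ))) := by
        rw [Real.exp_sum]
    _ ≤ _ := by
        refine Real.exp_le_exp.mpr ?_
        rw [← Finset.mul_sum]
        refine mul_le_mul_of_nonneg_left ?_ (by positivity)
        exact hs.sum_le_tsum _ fun n _ => by positivity

/-- Rankin's bound. -/
theorem sum_le {L : ℝ} (hL : 0 ≤ L) {η : ℝ} (hη : 0 < η) {θ : ℝ} (h1 : 1 / 2 ≤ θ) (h2 : θ ≤ 1)
    (h3 : 1 < (1 + η) * θ) (X : ℕ) :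
    ∑ m ∈ Finset.Icc 1 X, L ^ m.primeFactors.card / (rad m : ℝ) ≤ (X : ℝ) ^ η *
      Real.exp (3 * (L * cc η) ^ θ * ∑' n : ℕ, 1 / (n : ℝ) ^ ((1 + η) * θ)) := by
  have hsum : ∀ {p : ℕ}, p.Prime → Summable (fun n : ℕ => ‖w L η (p ^ n)‖) := by
    intro p hp
    have := (hasSum_w L hη hp).summable
    refine this.congr fun n => ?_
    rw [Real.norm_of_nonneg (w_nonneg hL η _)]
  obtain ⟨-, hh⟩ := EulerProduct.summable_and_hasSum_smoothNumbers_prod_primesBelow_tsum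
    (f := w L η) (w_one L η) (fun {m n} h => w_mul L η h) hsum (X + 1)
  have h4 : ∑ m ∈ Finset.Icc 1 X, w L η m ≤ ∏ p ∈ (X + 1).primesBelow, ∑' k : ℕ, w L η (p ^ k) := by
    have h5 : ∀ m ∈ Finset.Icc 1 X, m ∈ (X + 1).smoothNumbers := by
      intro m hm
      obtain ⟨h6, h7⟩ := Finset.mem_Icc.mp hm
      exact Nat.mem_smoothNumbers_of_lt h6 (by omega)
    have h6 : ∑ m ∈ Finset.Icc 1 X, w L η m =
        ∑ m ∈ (Finset.Icc 1 X).attach.map ⟨fun m => (⟨m.1, h5 m.1 m.2⟩ : (X + 1).smoothNumbers),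
          fun a b hab => Subtype.ext (Subtype.mk.inj hab)⟩, w L η m := by
      rw [Finset.sum_map]
      exact (Finset.sum_attach (Finset.Icc 1 X) (fun m => w L η m)).symm
    rw [h6]
    exact sum_le_hasSum _ (fun m _ => w_nonneg hL η _) hh
  calc ∑ m ∈ Finset.Icc 1 X, L ^ m.primeFactors.card / (rad m : ℝ)
      ≤ ∑ m ∈ Finset.Icc 1 X, (X : ℝ) ^ η * w L η m := by
        refine Finset.sum_le_sum fun m hm => ?_
        obtain ⟨h6, h7⟩ := Finset.mem_Icc.mp hm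
        have h8 : (0 : ℝ) < (m : ℝ) := by exact_mod_cast h6
        have h9 : (m : ℝ) ^ η ≤ (X : ℝ) ^ η := Real.rpow_le_rpow h8.le (by exact_mod_cast h7) hη.le
        have h10 : L ^ m.primeFactors.card / (rad m : ℝ) = (m : ℝ) ^ η * w L η m := by
          have h11 : (0 : ℝ) < (m : ℝ) ^ η := by positivity
          have h12 : (0 : ℝ) < (rad m : ℝ) := by exact_mod_cast rad_pos m
          unfold w
          field_simp
        rw [h10]
        exact mul_le_mul_of_nonneg_right h9 (w_nonneg hL η m)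
    _ = (X : ℝ) ^ η * ∑ m ∈ Finset.Icc 1 X, w L η m := by rw [Finset.mul_sum]
    _ ≤ _ := mul_le_mul_of_nonneg_left (h4.trans (prod_le hL hη h1 h2 h3 _)) (by positivity)

/-- Powers with an exponent below one are small. -/
theorem rpow_small {B η θ : ℝ} (hB : 0 ≤ B) (hη : 0 < η) (h0 : 0 < θ) (h2 : θ < 1) :
    ∃ D : ℝ, 0 ≤ D ∧ ∀ y : ℝ, 0 ≤ y → B * y ^ θ ≤ η * y + D := by
  set y0 : ℝ := (B / η) ^ (1 / (1 - θ)) with hy0
  have hy0' : 0 ≤ y0 := by positivity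
  refine ⟨B * y0 ^ θ, by positivity, fun y hy => ?_⟩
  rcases le_total y y0 with h | h
  · have h3 : y ^ θ ≤ y0 ^ θ := Real.rpow_le_rpow hy h h0.le
    have h4 : B * y ^ θ ≤ B * y0 ^ θ := mul_le_mul_of_nonneg_left h3 hB
    have h5 : 0 ≤ η * y := by positivity
    linarith
  · rcases eq_or_lt_of_le hy with h' | h'
    · rw [← h', Real.zero_rpow h0.ne']
      have h5 : 0 ≤ B * y0 ^ θ := by positivity
      linarith
    have h3 : B / η ≤ y ^ (1 - θ) := by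
      calc B / η = y0 ^ (1 - θ) := by
            rw [hy0, ← Real.rpow_mul (by positivity), one_div, inv_mul_cancel₀ (by linarith), Real.rpow_one]
        _ ≤ y ^ (1 - θ) := Real.rpow_le_rpow hy0' h (by linarith)
    have h4 : B ≤ y ^ (1 - θ) * η := (div_le_iff₀ hη).mp h3
    have h5 : y ^ (1 - θ) * y ^ θ = y := by
      rw [← Real.rpow_add h', sub_add_cancel, Real.rpow_one]
    have h6 : B * y ^ θ ≤ y ^ (1 - θ) * η * y ^ θ := mul_le_mul_of_nonneg_right h4 (by positivity)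
    have h7 : y ^ (1 - θ) * η * y ^ θ = η * y := by
      calc y ^ (1 - θ) * η * y ^ θ = η * (y ^ (1 - θ) * y ^ θ) := by ring
        _ = _ := by rw [h5]
    have h8 : 0 ≤ B * y0 ^ θ := by positivity
    linarith

/-- The bound used below. -/
theorem sum_small {δ : ℝ} (hδ : 0 < δ) : ∃ C : ℝ, 0 ≤ C ∧ ∀ X : ℕ, 1 ≤ X →
    ∑ m ∈ Finset.Icc 1 X, (3 * Real.log X) ^ m.primeFactors.card / (rad m : ℝ) ≤ C * (X : ℝ) ^ δ := by
  obtain ⟨η, hη, hη1, hηδ⟩ : ∃ η : ℝ, 0 < η ∧ η ≤ 1 ∧ 2 * η ≤ δ :=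
    ⟨min 1 (δ / 2), by positivity, min_le_left _ _, by
      have := min_le_right 1 (δ / 2)
      linarith⟩
  set θ : ℝ := (1 + η / 2) / (1 + η) with hθ
  have e1 : (1 + η) * θ = 1 + η / 2 := by
    rw [hθ]
    field_simp
  have h1 : 1 / 2 ≤ θ := by
    rw [hθ, le_div_iff₀ (by linarith)]
    linarith
  have h2 : θ < 1 := by
    rw [hθ, div_lt_one (by linarith)]
    linarith
  have h3 : 1 < (1 + η) * θ := by
    rw [e1]
    linarith
  set K : ℝ := ∑' n : ℕ, 1 / (n : ℝ) ^ ((1 + η) * θ) with hK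
  have hK0 : 0 ≤ K := tsum_nonneg fun n => by positivity
  have hc := cc_pos hη
  obtain ⟨D, hD, hD'⟩ := rpow_small (B := 3 * (3 * cc η) ^ θ * K) (by positivity) hη (by linarith) h2
  refine ⟨Real.exp D, by positivity, fun X hX => ?_⟩
  have hXR : (1 : ℝ) ≤ (X : ℝ) := by exact_mod_cast hX
  have hlog : 0 ≤ Real.log X := Real.log_nonneg hXR
  refine (sum_le (L := 3 * Real.log X) (by positivity) hη h1 h2.le h3 X).trans ?_
  have h4 : 3 * (3 * Real.log X * cc η) ^ θ * K = 3 * (3 * cc η) ^ θ * K * (Real.log X) ^ θ := by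
    rw [show 3 * Real.log X * cc η = (3 * cc η) * Real.log X by ring,
      Real.mul_rpow (by positivity) hlog]
    ring
  rw [h4]
  calc (X : ℝ) ^ η * Real.exp (3 * (3 * cc η) ^ θ * K * (Real.log X) ^ θ)
      ≤ (X : ℝ) ^ η * Real.exp (η * Real.log X + D) :=
        mul_le_mul_of_nonneg_left (Real.exp_le_exp.mpr (hD' _ hlog)) (by positivity)
    _ = Real.exp D * ((X : ℝ) ^ η * (X : ℝ) ^ η) := by
        rw [Real.exp_add, mul_comm η, ← Real.rpow_def_of_pos (by linarith)]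
        ring
    _ = Real.exp D * (X : ℝ) ^ (2 * η) := by
        rw [← Real.rpow_add (by linarith), ← two_mul]
    _ ≤ Real.exp D * (X : ℝ) ^ δ :=
        mul_le_mul_of_nonneg_left (Real.rpow_le_rpow_of_exponent_le hXR hηδ) (by positivity)

end Pool.Agent.HCav
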